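import Pool.Agent.Y524L.St

/-!
# Amalgams over a locally finite group (job AM2 of helper524)
-/

set_option autoImplicit false

namespace Pool.Agent.Y255.LAM

open Pool.Agent.Y462.SS Pool.Agent.Y524L

section

variable {A P Q : Type} [Group A] [Group P] [Group Q] (i : Q →* A) (j : Q →* P)

/-- the relations of the elements of `F` -/
def Rel (F : Set Q) : Set (Monoid.Coprod A P) :=
  {r | ∃ q : Q, q ∈ F ∧ r = Monoid.Coprod.inl (i q) * (Monoid.Coprod.inr (j q))⁻¹}

/-- the normal closure of the relations of the subgroup generated by `s` -/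
def NN (s : Finset Q) : Subgroup (Monoid.Coprod A P) :=
  Subgroup.normalClosure (Rel i j (Subgroup.closure (s : Set Q) : Set Q))

instance (s : Finset Q) : (NN i j s).Normal := Subgroup.normalClosure_normal

theorem Rel_mono {F F' : Set Q} (h : F ⊆ F') : Rel i j F ⊆ Rel i j F' := by
  rintro r ⟨q, hq, rfl⟩
  exact ⟨q, h hq, rfl⟩

theorem NN_mono {s t : Finset Q} (h : s ≤ t) : NN i j s ≤ NN i j t := by
  refine Subgroup.normalClosure_mono (Rel_mono i j ?_)
  exact Subgroup.closure_mono (Finset.coe_subset.2 h)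

/-- the normal closure of all relations -/
def NA : Subgroup (Monoid.Coprod A P) := Subgroup.normalClosure
  {r : Monoid.Coprod A P | ∃ q : Q, r = Monoid.Coprod.inl (i q) * (Monoid.Coprod.inr (j q))⁻¹}

instance : (NA i j).Normal := Subgroup.normalClosure_normal

theorem NN_le (s : Finset Q) : NN i j s ≤ NA i j := by
  refine Subgroup.normalClosure_mono ?_
  rintro r ⟨q, _, rfl⟩
  exact ⟨q, rfl⟩

/-- the union of the `NN` -/
def UN : Subgroup (Monoid.Coprod A P) where
  carrier := {x | ∃ s, x ∈ NN i j s}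
  one_mem' := ⟨∅, one_mem _⟩
  mul_mem' := by
    classical
    rintro a b ⟨s, hs⟩ ⟨t, ht⟩
    exact ⟨s ∪ t, mul_mem (NN_mono i j Finset.subset_union_left hs)
      (NN_mono i j Finset.subset_union_right ht)⟩
  inv_mem' := by
    rintro a ⟨s, hs⟩
    exact ⟨s, inv_mem hs⟩

theorem mem_UN {x : Monoid.Coprod A P} (hx : x ∈ NA i j) : ∃ s, x ∈ NN i j s := by
  have hn : (UN i j).Normal := ⟨by
    rintro a ⟨s, hs⟩ g
    exact ⟨s, (inferInstance : (NN i j s).Normal).conj_mem a hs g⟩⟩
  have h1 : NA i j ≤ UN i j := by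
    refine Subgroup.normalClosure_le_normal ?_
    rintro r ⟨q, rfl⟩
    refine ⟨{q}, Subgroup.subset_normalClosure ⟨q, ?_, rfl⟩⟩
    apply Subgroup.subset_closure
    simp
  exact h1 hx

/-- the finite stages are in the class -/
theorem stage (h1 : S_AM1) (h2 : S_WR) (C : ∀ (G : Type) [Group G], Prop) (hC : Closed C)
    (hi : Function.Injective i) (hj : Function.Injective j) (hA : C A) (hP : C P)
    (hF : ∀ s : Finset Q, Finite (Subgroup.closure (s : Set Q)))
    (hR : ∀ s : Finset Q, ∃ (Y : Type) (_ : Finite Y) (α : A →* Equiv.Perm Y)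
      (π : P →* Equiv.Perm Y), (∀ q, α (i q) = π (j q)) ∧ ∀ q ∈ s, α (i q) = 1 → q = 1)
    (s : Finset Q) : C (Monoid.Coprod A P ⧸ NN i j s) := by
  have hfin : Finite (Subgroup.closure (s : Set Q)) := hF s
  have hfin' : (Subgroup.closure (s : Set Q) : Set Q).Finite := Set.toFinite _
  obtain ⟨Y, hY, α, π, hαπ, hinj⟩ := hR hfin'.toFinset
  obtain ⟨Z, hZ, Φ, hΦ⟩ := h1 A P (Subgroup.closure (s : Set Q))
    (i.comp (Subgroup.closure (s : Set Q)).subtype)
    (j.comp (Subgroup.closure (s : Set Q)).subtype) hfin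
    (hi.comp Subtype.val_injective) (hj.comp Subtype.val_injective) Y hY α π
    (fun q => hαπ q.1) (fun q hq => Subtype.ext (hinj q.1 (hfin'.mem_toFinset.2 q.2) hq))
  have hker : Φ.ker = NN i j s := by
    rw [hΦ]
    unfold NN Rel
    congr 1
    ext r
    constructor
    · rintro ⟨q, rfl⟩
      exact ⟨q.1, q.2, rfl⟩
    · rintro ⟨q, hq, rfl⟩
      exact ⟨⟨q, hq⟩, rfl⟩
  have hW : C (Wr Z (Monoid.Coprod A P)) := h2 C hC Z (Monoid.Coprod A P) hZ
    (hC.coprod A P hA hP)
  refine hC.of_injective _ _ (QuotientGroup.lift (NN i j s) Φ ?_) ?_ hW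
  · intro x hx
    rw [← hker] at hx
    exact hx
  · rw [injective_iff_map_eq_one]
    intro x
    induction x using QuotientGroup.induction_on with
    | H z =>
      intro hz
      rw [QuotientGroup.lift_mk] at hz
      rw [QuotientGroup.eq_one_iff, ← hker]
      exact hz

end

section

variable {A P Q : Type} [Group A] [Group P] [Group Q] (i : Q →* A) (j : Q →* P)

/-- the maps of the directed system -/
def ff (s t : Finset Q) (h : s ≤ t) :
    (Monoid.Coprod A P ⧸ NN i j s) →* (Monoid.Coprod A P ⧸ NN i j t) :=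
  QuotientGroup.map (NN i j s) (NN i j t) (MonoidHom.id _) (by
      rw [Subgroup.comap_id]
      exact NN_mono i j h)

/-- the maps to the limit -/
def gg (s : Finset Q) : (Monoid.Coprod A P ⧸ NN i j s) →* (Monoid.Coprod A P ⧸ NA i j) :=
  QuotientGroup.map (NN i j s) (NA i j) (MonoidHom.id _) (by
      rw [Subgroup.comap_id]
      exact NN_le i j s)

theorem ff_mk (s t : Finset Q) (h : s ≤ t) (z : Monoid.Coprod A P) :
    ff i j s t h (QuotientGroup.mk z) = QuotientGroup.mk z := by
  unfold ff
  rw [QuotientGroup.map_mk, MonoidHom.id_apply]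

theorem gg_mk (s : Finset Q) (z : Monoid.Coprod A P) :
    gg i j s (QuotientGroup.mk z) = QuotientGroup.mk z := by
  unfold gg
  rw [QuotientGroup.map_mk, MonoidHom.id_apply]

theorem colim_NA (C : ∀ (G : Type) [Group G], Prop) (hC : Closed C)
    (hS : ∀ s : Finset Q, C (Monoid.Coprod A P ⧸ NN i j s)) :
    C (Monoid.Coprod A P ⧸ NA i j) := by
  classical
  refine hC.colim (Finset Q) (fun s t => ⟨s ∪ t, Finset.subset_union_left,
      Finset.subset_union_right⟩)
    (fun s => Monoid.Coprod A P ⧸ NN i j s) (ff i j)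
    (Monoid.Coprod A P ⧸ NA i j) (gg i j) ?_ ?_ ?_ ?_ ?_ hS
  · intro s h x
    induction x using QuotientGroup.induction_on with
    | H z => exact ff_mk i j s s h z
  · intro s t u h h' x
    induction x using QuotientGroup.induction_on with
    | H z => rw [ff_mk, ff_mk, ff_mk]
  · intro s t h x
    induction x using QuotientGroup.induction_on with
    | H z => rw [ff_mk, gg_mk, gg_mk]
  · intro y
    induction y using QuotientGroup.induction_on with
    | H z => exact ⟨∅, QuotientGroup.mk z, gg_mk i j ∅ z⟩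
  · intro s x hx
    induction x using QuotientGroup.induction_on with
    | H z =>
      rw [gg_mk] at hx
      obtain ⟨t, ht⟩ := mem_UN i j ((QuotientGroup.eq_one_iff z).1 hx)
      refine ⟨s ∪ t, Finset.subset_union_left, ?_⟩
      rw [ff_mk, QuotientGroup.eq_one_iff]
      exact NN_mono i j Finset.subset_union_right ht

end

/-- Job AM2. -/
theorem t_am2 (h1 : S_AM1) (h2 : S_WR) : S_AM2 := by
  intro C hC A P Q _ _ _ i j hi hj hA hP hF hR
  exact colim_NA i j C hC (fun s => stage i j h1 h2 C hC hi hj hA hP hF hR s)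

end Pool.Agent.Y255.LAM
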